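import Pool.Agent.Helper69.VX.St

/-! Module VAR of project VX (helper69): the variance of the leftover functional. -/

set_option autoImplicit false

namespace Pool.Agent.Helper30.VX

open Finset Filter Pool.Agent.Helper82.CN Pool.Agent.Helper11.PV Pool.Agent.Helper69.VX

private lemma mem_lo {n m : ℕ} {v : Fin n} : v ∈ lo n m ↔ v.val < m := by
  simp [lo]

private lemma card_lo {n m : ℕ} (h : m ≤ n) : (lo n m).card = m := by
  have h1 : lo n m = (univ : Finset (Fin m)).map (Fin.castLEEmb h) := by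
    ext v
    rw [mem_lo, Finset.mem_map]
    constructor
    · intro hv
      exact ⟨⟨v.val, hv⟩, mem_univ _, by ext; rfl⟩
    · rintro ⟨w, _, rfl⟩
      exact w.isLt
  rw [h1, Finset.card_map, Finset.card_univ, Fintype.card_fin]

private lemma lo_full (n : ℕ) : (lo n n : Set (Fin n)) = Set.univ := by
  ext v
  simp [lo]

private lemma lo_zero (n : ℕ) : (lo n 0 : Set (Fin n)) = ∅ := by
  ext v
  simp [lo]

private lemma EK_empty {V : Type} : EK (∅ : Set V) = ∅ := by
  ext e
  induction e using Sym2.ind with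
  | _ a b =>
    rw [mem_EK]
    simp

private lemma NN_full (p : ℝ) (n l : ℕ) :
    NN p (EK (lo n n : Set (Fin n))) (PH l) = EE p (fun ω : Sym2 (Fin n) → Bool => PH l ω ^ 2) := by
  unfold NN
  rw [lo_full, AV_dep p (dep_PH l) (le_refl _)]

private lemma NN_zero (p : ℝ) (n l : ℕ) :
    NN p (EK (lo n 0 : Set (Fin n))) (PH l) =
      (EE p (PH l : (Sym2 (Fin n) → Bool) → ℝ)) ^ 2 := by
  unfold NN
  rw [lo_zero, EK_empty]
  have h1 : ∀ ω : Sym2 (Fin n) → Bool, AV p (∅ : Set (Sym2 (Fin n))) (PH l) ω =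
      EE p (PH l : (Sym2 (Fin n) → Bool) → ℝ) := by
    intro ω
    unfold AV
    congr 1
    funext η
    congr 1
    funext i
    rw [mix_neg (Set.notMem_empty i)]
  simp only [h1, EE_const]

private lemma VV_eq {ι : Type} [Fintype ι] [DecidableEq ι] (p : ℝ) (F : (ι → Bool) → ℝ) :
    VV p F = EE p (fun ω => F ω ^ 2) - (EE p F) ^ 2 := by
  unfold VV
  have h2 : ∀ ω, (F ω - EE p F) ^ 2 = (F ω ^ 2 - 2 * EE p F * F ω) + EE p F ^ 2 :=
    fun ω => by ring
  simp only [h2]
  rw [EE_add, EE_sub, EE_mul_left, EE_const]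
  ring

theorem hVAR : StSTP → StSTL → StSTQ → StVAR := by
  intro hSTP hSTL hSTQ p N l M s hp hp1 hs hM
  have hs0 : 0 < s := by linarith
  have hlog : 0 ≤ Real.log s := Real.log_nonneg hs
  have hq : 0 < 1 - p := by linarith
  have hMr : (1 : ℝ) ≤ (M : ℝ) := by exact_mod_cast hM
  set u : Fin (N + 1) := Fin.last N with hu
  set X : ℝ := EE p (fun ω : Sym2 (Fin (N + 1)) → Bool => (al ω : ℝ) ^ 2) with hX
  have hX0 : 0 ≤ X := EE_nonneg hp.le hp1.le fun _ => sq_nonneg _
  set K : ℝ := X / ((1 - p) ^ 2 * (M : ℝ) ^ 2) with hK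
  have hK0 : 0 ≤ K := by positivity
  set a : ℕ → ℝ := fun m => NN p (EK (lo (N + 1) m : Set (Fin (N + 1)))) (PH l) with ha
  set q : ℕ → ℝ := fun m => ∑ w ∈ lo (N + 1) m,
    NN p (LA u (lo (N + 1) m : Set (Fin (N + 1)))) (DD (PH l) s(u, w)) with hqd
  have hq0 : ∀ m, 0 ≤ q m := fun m => Finset.sum_nonneg fun w _ => NN_nonneg hp.le hp1.le _ _
  -- telescoping
  have htel : VV p (PH l : (Sym2 (Fin (N + 1)) → Bool) → ℝ) =
      ∑ m ∈ range (N + 1), (a (m + 1) - a m) := by
    rw [Finset.sum_range_sub, VV_eq]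
    show _ = NN p (EK (lo (N + 1) (N + 1) : Set (Fin (N + 1)))) (PH l) -
      NN p (EK (lo (N + 1) 0 : Set (Fin (N + 1)))) (PH l)
    rw [NN_full, NN_zero]
  -- one step
  have hstep : ∀ m ∈ range (N + 1), (a (m + 1) - a m) * (1 + Real.log s) ≤
      (if N + 1 < m + M then (1 + Real.log s) else 0) + s * (((N + 1 : ℕ) : ℝ) * K) + 2 * q m := by
    intro m hm
    have hmN : m ≤ N := Nat.lt_succ_iff.mp (Finset.mem_range.mp hm)
    obtain ⟨h1, h2⟩ := hSTP p N l m s hp hp1 hs0 hmN
    have hnn : 0 ≤ s * (((N + 1 : ℕ) : ℝ) * K) := by positivity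
    by_cases hc : N + 1 < m + M
    · rw [if_pos hc]
      have h3 : (a (m + 1) - a m) * (1 + Real.log s) ≤ 1 * (1 + Real.log s) :=
        mul_le_mul_of_nonneg_right h2 (by linarith)
      have h4 := hq0 m
      linarith
    · rw [if_neg hc]
      have hc' : m + M ≤ N + 1 := not_lt.mp hc
      have h5 : ∑ w ∈ lo (N + 1) m, NN p (EK (lo (N + 1) m : Set (Fin (N + 1))))
          (DD (PH l) s(u, w)) ≤ ((N + 1 : ℕ) : ℝ) * K := by
        have h6 : ∀ w ∈ lo (N + 1) m, NN p (EK (lo (N + 1) m : Set (Fin (N + 1))))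
            (DD (PH l) s(u, w)) ≤ K := by
          intro w hw
          have hun : u ∉ lo (N + 1) m := by
            rw [mem_lo, hu]
            simp only [Fin.val_last]
            omega
          have h7 := hSTL p (N + 1) l (lo (N + 1) m) u w hp hp1 hun hw
          rw [card_lo (by omega)] at h7
          have h8 : (M : ℝ) ≤ ((N + 1 - m : ℕ) : ℝ) := by
            have : M ≤ N + 1 - m := by omega
            exact_mod_cast this
          have h9 : (M : ℝ) ^ 2 ≤ ((N + 1 - m : ℕ) : ℝ) ^ 2 :=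
            pow_le_pow_left₀ (by linarith) h8 2
          have h10 : 0 ≤ NN p (EK (lo (N + 1) m : Set (Fin (N + 1)))) (DD (PH l) s(u, w)) :=
            NN_nonneg hp.le hp1.le _ _
          have h11 : (M : ℝ) ^ 2 * NN p (EK (lo (N + 1) m : Set (Fin (N + 1))))
              (DD (PH l) s(u, w)) ≤ X / (1 - p) ^ 2 :=
            le_trans (mul_le_mul_of_nonneg_right h9 h10) h7
          rw [hK, le_div_iff₀ (by positivity)]
          rw [le_div_iff₀ (by positivity)] at h11
          refine le_trans (le_of_eq ?_) h11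
          ring
        calc _ ≤ ∑ w ∈ lo (N + 1) m, K := Finset.sum_le_sum h6
          _ = (m : ℝ) * K := by
            rw [Finset.sum_const, card_lo (by omega), nsmul_eq_mul]
          _ ≤ ((N + 1 : ℕ) : ℝ) * K := by
            refine mul_le_mul_of_nonneg_right ?_ hK0
            have : m ≤ N + 1 := by omega
            exact_mod_cast this
      have h12 := mul_le_mul_of_nonneg_left h5 hs0.le
      have h13 : (a (m + 1) - a m) * (1 + Real.log s) ≤
        s * ∑ w ∈ lo (N + 1) m, NN p (EK (lo (N + 1) m : Set (Fin (N + 1))))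
          (DD (PH l) s(u, w)) + 2 * q m := h1
      linarith
  have hcount : ∑ m ∈ range (N + 1), (if N + 1 < m + M then (1 + Real.log s) else 0) ≤
      (M : ℝ) * (1 + Real.log s) := by
    rw [← Finset.sum_filter, Finset.sum_const, nsmul_eq_mul]
    refine mul_le_mul_of_nonneg_right ?_ (by linarith)
    have h14 : ((range (N + 1)).filter (fun m => N + 1 < m + M)).card ≤ M := by
      have h15 : (range (N + 1)).filter (fun m => N + 1 < m + M) ⊆ Finset.Ico (N + 1 - M) (N + 1) := by
        intro m hm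
        rw [Finset.mem_filter, Finset.mem_range] at hm
        rw [Finset.mem_Ico]
        omega
      refine le_trans (Finset.card_le_card h15) ?_
      rw [Nat.card_Ico]
      omega
    exact_mod_cast h14
  have hQ : p * (1 - p) * ∑ m ∈ range (N + 1), q m ≤ N := hSTQ p N l hp hp1
  have hpq : 0 < p * (1 - p) := mul_pos hp hq
  have hQ2 : ∑ m ∈ range (N + 1), q m ≤ N / (p * (1 - p)) := by
    rw [le_div_iff₀ hpq]
    linarith [mul_comm (p * (1 - p)) (∑ m ∈ range (N + 1), q m)]
  rw [htel, Finset.sum_mul]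
  refine le_trans (Finset.sum_le_sum hstep) ?_
  have h22 : ∑ m ∈ range (N + 1), 2 * q m = 2 * ∑ m ∈ range (N + 1), q m :=
    (Finset.mul_sum _ _ _).symm
  rw [Finset.sum_add_distrib, Finset.sum_add_distrib, h22, Finset.sum_const,
    Finset.card_range, nsmul_eq_mul]
  have h20 : ((N + 1 : ℕ) : ℝ) * (s * (((N + 1 : ℕ) : ℝ) * K)) =
      s * ((N + 1 : ℕ) : ℝ) ^ 2 * X / ((1 - p) ^ 2 * (M : ℝ) ^ 2) := by
    rw [hK]
    ring
  have h21 : 2 * (N : ℝ) / (p * (1 - p)) = 2 * (N / (p * (1 - p))) := by ring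
  rw [h20, h21]
  linarith

end Pool.Agent.Helper30.VX
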